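import Pool.Agent.H902R3.PZ.Dat

/-!
# A member of the Selberg class with a simple pole at `s = 1` which is not divisible by `ζ`

We disprove Q1 of the problem (`result`): there is `F` in the Selberg class with a simple pole at `s = 1`
such that `F / ζ` is not entire.  In fact (`strong`) for every zero `1/2 + iγ`, `γ > 0`, of `ζ` on the
critical line there is such an `F` for which `F / ζ` has a simple pole at `1/2 + iγ`.

Construction: `F = ζ H`, `H(s) = ∏_{p ∈ B} (1 + a(p) p^{-s})` over a sparse set `B` of primes with tiny real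
coefficients, with a functional equation `s ↔ 1 - s` with one gamma factor `Γ(λ s + 1/6)`,
`λ = 2m + 5/3`, and whose only poles are simple poles at `1/2 ± iγ`.
-/

set_option autoImplicit false

open Complex

namespace Pool.Agent.Results.MP_995735_nt.ZetaDoesNotDivide

/-- The completed function `Φ(s) = Q^s ∏_{j ≤ k} Γ(λ_j s + μ_j) F(s)`. -/
noncomputable def Phi (F : ℂ → ℂ) (Q : ℝ) {k : ℕ} (lam : Fin k → ℝ) (mu : Fin k → ℂ) (s : ℂ) : ℂ :=
  (Q : ℂ) ^ s * (∏ j, Gamma ((lam j : ℂ) * s + mu j)) * F s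

/-- The Selberg class: `a` is the sequence of coefficients of the Dirichlet series and `F` is its
continuation to `ℂ \ {1}` (the value of `F` at `1` is irrelevant). -/
structure IsSelberg (a : ℕ → ℂ) (F : ℂ → ℂ) : Prop where
  /-- axiom 1: the Dirichlet series converges absolutely for `Re s > 1` -/
  abs_conv : ∀ s : ℂ, 1 < s.re → LSeriesSummable a s
  /-- `F` is the sum of the Dirichlet series for `Re s > 1` -/
  eq_series : ∀ s : ℂ, 1 < s.re → F s = LSeries a s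
  /-- axiom 2: some `(s - 1)^m F(s)` is entire of finite order -/
  continuation : ∃ (m : ℕ) (G : ℂ → ℂ), Differentiable ℂ G ∧
    (∃ A C : ℝ, 0 < A ∧ ∀ s : ℂ, ‖G s‖ ≤ C * Real.exp (‖s‖ ^ A)) ∧
    ∀ s : ℂ, s ≠ 1 → G s = (s - 1) ^ m * F s
  /-- axiom 3: functional equation `Φ(s) = ω conj Φ(1 - conj s)`, at every `s ≠ 0, 1` at which no gamma
  factor of `Φ(s)` or `Φ(1 - conj s)` has a pole -/
  functional : ∃ (Q : ℝ) (k : ℕ) (lam : Fin k → ℝ) (mu : Fin k → ℂ) (ω : ℂ),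
    0 < Q ∧ (∀ j, 0 < lam j) ∧ (∀ j, 0 ≤ (mu j).re) ∧ ‖ω‖ = 1 ∧
    ∀ s : ℂ, s ≠ 0 → s ≠ 1 →
      (∀ j, ∀ n : ℕ, (lam j : ℂ) * s + mu j ≠ -(n : ℂ)) →
      (∀ j, ∀ n : ℕ, (lam j : ℂ) * (1 - starRingEnd ℂ s) + mu j ≠ -(n : ℂ)) →
      Phi F Q lam mu s = ω * starRingEnd ℂ (Phi F Q lam mu (1 - starRingEnd ℂ s))
  /-- axiom 4: `a(n) ≪ n^ε` -/
  ramanujan : ∀ ε : ℝ, 0 < ε → ∃ C : ℝ, ∀ n : ℕ, 1 ≤ n → ‖a n‖ ≤ C * (n : ℝ) ^ ε
  /-- axiom 5, first part -/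
  a_one : a 1 = 1
  /-- axiom 5: `log F(s) = ∑ b(n) n^{-s}`, `b` supported on prime powers, `b(n) ≪ n^θ`, `θ < 1/2` -/
  euler : ∃ (b : ℕ → ℂ) (θ : ℝ), θ < 1 / 2 ∧ (∀ n : ℕ, ¬ IsPrimePow n → b n = 0) ∧
    (∃ C : ℝ, ∀ n : ℕ, 1 ≤ n → ‖b n‖ ≤ C * (n : ℝ) ^ θ) ∧
    ∀ s : ℂ, 1 < s.re → LSeriesSummable b s ∧ exp (LSeries b s) = F s

/-- Q1: if a member `F` of the Selberg class has a pole of order exactly `r ≥ 1` at `s = 1` then
`F = ζ^r L₁` with `L₁` entire. -/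
def Q1 : Prop := ∀ (a : ℕ → ℂ) (F : ℂ → ℂ), IsSelberg a F → ∀ r : ℕ, 1 ≤ r →
  meromorphicOrderAt F 1 = ((-(r : ℤ) : ℤ) : WithTop ℤ) →
  ∃ L₁ : ℂ → ℂ, Differentiable ℂ L₁ ∧ ∀ s : ℂ, s ≠ 1 → F s = riemannZeta s ^ r * L₁ s

open Pool.Agent.H902R3.PZ in
theorem isSelberg (D : Dat) : IsSelberg (aa D.m D.β) D.F where
  abs_conv := fun s hs => summable_aa D.hβ hs
  eq_series := fun s hs => D.F_series hs
  continuation := by
    obtain ⟨C, hC, h⟩ := D.G_gr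
    obtain ⟨K, hK⟩ := Pool.Agent.H902R3.I469.growth_aux C
    refine ⟨1, D.G, D.G_diff, ⟨3, Real.exp K, by norm_num, fun s => (h s).trans ?_⟩, fun s hs => ?_⟩
    · calc Real.exp (C * (1 + ‖s‖) ^ 2) ≤ Real.exp (‖s‖ ^ 3 + K) :=
            Real.exp_le_exp.2 (hK _ (norm_nonneg _))
        _ = Real.exp K * Real.exp (‖s‖ ^ (3 : ℝ)) := by
            rw [Real.exp_add, mul_comm]
            congr 2
            rw [← Real.rpow_natCast]
            norm_num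
    · have h1 : s - 1 ≠ 0 := sub_ne_zero.2 hs
      rw [pow_one]
      unfold Dat.F
      field_simp
  functional := by
    refine ⟨D.Q, 2, ![1 / 2, D.lam], ![0, 1 / 6], 1, D.Q_pos, ?_, ?_, by simp, ?_⟩
    · intro j
      fin_cases j
      · norm_num
      · simpa using D.lam_pos'
    · intro j
      fin_cases j
      · norm_num
      · norm_num
    · intro s hs0 hs1 h1 h2
      have e1 : ∀ w : ℂ, (((![1 / 2, D.lam] : Fin 2 → ℝ) 0 : ℝ) : ℂ) * w + (![0, 1 / 6] : Fin 2 → ℂ) 0 = 1 / 2 * w := by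
        intro w; simp
      have e2 : ∀ w : ℂ, (((![1 / 2, D.lam] : Fin 2 → ℝ) 1 : ℝ) : ℂ) * w + (![0, 1 / 6] : Fin 2 → ℂ) 1 =
          (D.lam : ℂ) * w + 1 / 6 := by
        intro w; simp
      have g1 : ∀ n : ℕ, (1 / 2 : ℂ) * s ≠ -(n : ℂ) := fun n => by rw [← e1]; exact h1 0 n
      have g2 : ∀ n : ℕ, (D.lam : ℂ) * s + 1 / 6 ≠ -(n : ℂ) := fun n => by rw [← e2]; exact h1 1 n
      have g3 : ∀ n : ℕ, (1 / 2 : ℂ) * (1 - starRingEnd ℂ s) ≠ -(n : ℂ) := fun n => by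
        rw [← e1]; exact h2 0 n
      have g4 : ∀ n : ℕ, (D.lam : ℂ) * (1 - starRingEnd ℂ s) + 1 / 6 ≠ -(n : ℂ) := fun n => by
        rw [← e2]; exact h2 1 n
      have key := D.FE' hs0 hs1 g1 g2 g3 g4
      have hPhi : ∀ w : ℂ, Phi D.F D.Q ![1 / 2, D.lam] ![0, 1 / 6] w =
          D.F w * ((D.Q : ℝ) : ℂ) ^ w * (Gamma (1 / 2 * w) * Gamma ((D.lam : ℂ) * w + 1 / 6)) := by
        intro w
        unfold Phi
        rw [Fin.prod_univ_two, e1, e2]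
        ring
      rw [hPhi, hPhi, one_mul]
      exact key
  ramanujan := fun ε hε => aa_ramanujan D.hβ ε hε
  a_one := aa_one
  euler := ⟨bF D.m D.β, 0, by norm_num, fun n hn => bF_eq_zero hn,
    ⟨2, fun n _ => by rw [Real.rpow_zero, mul_one]; exact norm_bF_le D.hβ n⟩,
    fun s hs => ⟨summable_bF D.hβ hs, by rw [exp_bF D.hβ hs, D.F_series hs]⟩⟩

/-- `ζ` has a zero `1/2 + iγ` with `γ > 0`, and for every such zero there is a member `F` of the Selberg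
class with a simple pole at `s = 1` such that `F / ζ` has a simple pole at `1/2 + iγ`. -/
theorem strong : (∃ γ : ℝ, 0 < γ ∧ riemannZeta (1 / 2 + γ * I) = 0) ∧
    ∀ γ : ℝ, 0 < γ → riemannZeta (1 / 2 + γ * I) = 0 →
      ∃ (a : ℕ → ℂ) (F : ℂ → ℂ), IsSelberg a F ∧
        meromorphicOrderAt F 1 = ((-1 : ℤ) : WithTop ℤ) ∧
        meromorphicOrderAt (fun s => F s / riemannZeta s) (1 / 2 + γ * I) = ((-1 : ℤ) : WithTop ℤ) := by
  refine ⟨Pool.Agent.H902R3.PZ.taskE, ?_⟩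
  intro γ hγ hz
  obtain ⟨D, hD⟩ := Pool.Agent.H902R3.PZ.exists_dat hγ hz
  refine ⟨_, _, isSelberg D, D.order_one, ?_⟩
  have := D.order_rho
  unfold Pool.Agent.H902R3.PZ.Dat.rho at this
  rw [hD] at this
  exact this

/-- **Disproof of Q1.** -/
theorem result : ¬ Q1 := by
  intro h
  obtain ⟨γ, hγ, hz⟩ := Pool.Agent.H902R3.PZ.taskE
  obtain ⟨D, -⟩ := Pool.Agent.H902R3.PZ.exists_dat hγ hz
  obtain ⟨L₁, hL, hF⟩ := h _ _ (isSelberg D) 1 le_rfl (by rw [D.order_one]; rfl)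
  exact D.no_entire ⟨L₁, hL, fun s hs => by rw [hF s hs, pow_one]⟩

end Pool.Agent.Results.MP_995735_nt.ZetaDoesNotDivide
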